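import Pool.Agent.H30.Jg.Final

set_option autoImplicit false

/-!
Jaeger's conjecture for cubic graphs which have a 2-factor with cycles of length at most five.

The 2-factor is given by a permutation `σ` with `v ~ σ v` and `σ (σ v) ≠ v`; its edges are the
pairs `{v, σ v}` and its cycles are the cycles of `σ`.  Only the cuts which contain no edge of
the 2-factor are needed.  The cycle passes through two prescribed edges outside the 2-factor and
misses at most one vertex of each cycle of the 2-factor.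
-/

namespace Pool.Agent.Results.MP_caa3b9_co.ShortTwoFactor

open Pool.Agent.H30.Jg

theorem result :
    ∀ (V : Type) [Fintype V] [DecidableEq V] [Nonempty V]
      (G : SimpleGraph V) [DecidableRel G.Adj],
      G.IsRegularOfDegree 3 →
      ∀ σ : Equiv.Perm V,
      (∀ v, G.Adj v (σ v)) →
      (∀ v, σ (σ v) ≠ v) →
      (∀ v, ∃ k : ℕ, 0 < k ∧ k ≤ 5 ∧ (σ ^ k) v = v) →
      (∀ X : Finset V, (∀ v, σ v ∈ X ↔ v ∈ X) →
        ¬ (G.induce (X : Set V)).IsAcyclic →
        ¬ (G.induce {v : V | v ∉ X}).IsAcyclic →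
        4 ≤ ((Finset.univ ×ˢ Finset.univ).filter
              (fun p : V × V => p.1 ∈ X ∧ p.2 ∉ X ∧ G.Adj p.1 p.2)).card) →
      ∀ e ∈ G.edgeSet, ∀ f ∈ G.edgeSet, (∀ v, e ≠ s(v, σ v)) → (∀ v, f ≠ s(v, σ v)) →
      ∃ (u : V) (c : G.Walk u u), c.IsCycle ∧ e ∈ c.edges ∧ f ∈ c.edges ∧
        (∀ v w, v ∉ c.support → w ∉ c.support → σ.SameCycle v w → v = w) ∧
        (∀ v w x, v ∉ c.support → w ∉ c.support → x ∉ c.support → G.Adj v w → G.Adj v x →
          w = x) ∧
        (G.induce {v : V | v ∉ c.support}).IsAcyclic := by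
  intro V _ _ _ G _ hreg σ hσ h2 h5 h4 e he f hf heσ hfσ
  obtain ⟨m, hm, hG, hm1, hm2⟩ := third G hreg σ hσ h2
  have hm0 : ∀ v, m v ≠ v := fun v hh => by
    have := (hG v (m v)).mpr (Or.inr (Or.inr rfl))
    rw [hh] at this
    exact this.ne rfl
  let φ := Fintype.equivFin V
  let E : Finset V := Finset.univ.filter (fun v => φ v < φ (m v))
  have hE : ∀ v, v ∈ E ↔ m v ∉ E := by
    intro v
    simp only [E, Finset.mem_filter, Finset.mem_univ, true_and, hm, not_lt]
    constructor
    · exact le_of_lt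
    · intro hle
      refine lt_of_le_of_ne hle fun hh => hm0 v (φ.injective hh).symm
  have hblk : ∀ v, blk σ v ≤ 5 := by
    intro v
    obtain ⟨k, hk, hk5, hkv⟩ := h5 v
    exact blk_le σ v hk hk5 hkv
  have hrep : ∀ g ∈ G.edgeSet, (∀ v, g ≠ s(v, σ v)) → ∃ p ∈ E, g = s(p, m p) := by
    intro g hg hgσ
    induction g using Sym2.ind with
    | _ x y =>
      rw [SimpleGraph.mem_edgeSet] at hg
      rcases (hG x y).mp hg with rfl | rfl | rfl
      · exact absurd rfl (hgσ x)
      · exfalso
        apply hgσ (σ.symm x)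
        rw [Equiv.apply_symm_apply, Sym2.eq_swap]
      · by_cases hx : x ∈ E
        · exact ⟨x, hx, rfl⟩
        · refine ⟨m x, ?_, ?_⟩
          · by_contra hcon
            exact hx ((hE x).mpr hcon)
          · rw [hm, Sym2.eq_swap]
  obtain ⟨p, hp, rfl⟩ := hrep e he heσ
  obtain ⟨q, hq, rfl⟩ := hrep f hf hfσ
  have hmain : Concl G σ s(p, m p) s(q, m q) := by
    by_cases hone : ∀ v w, σ.SameCycle v w
    · exact one_block G hreg σ m hm hm0 E hE hblk hone p q
    · push Not at hone
      exact many_blocks G σ hσ h2 m hm hG hm1 hm2 E hE hblk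
        (cut_cond G σ h4 hσ h2 m hG) hone p q hp hq
  obtain ⟨u, c, hc, hec, hfc, hun⟩ := hmain
  have hdeg : ∀ v w x, v ∉ c.support → w ∉ c.support → x ∉ c.support → G.Adj v w →
      G.Adj v x → w = x := by
    intro v w x hv hw hx hvw hvx
    have key : ∀ y, y ∉ c.support → G.Adj v y → y = m v := by
      intro y hy hvy
      rcases (hG v y).mp hvy with h | h | h
      · exfalso
        refine hvy.ne (hun v y hv hy ?_)
        rw [h]
        exact Equiv.Perm.sameCycle_apply_right.mpr (Equiv.Perm.SameCycle.refl _ _)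
      · exfalso
        refine hvy.ne (hun v y hv hy ?_)
        rw [h]
        have := @Equiv.Perm.sameCycle_apply_right _ σ v (σ.symm v)
        rw [Equiv.apply_symm_apply] at this
        exact this.mp (Equiv.Perm.SameCycle.refl _ _)
      · exact h
    rw [key w hw hvw, key x hx hvx]
  refine ⟨u, c, hc, hec, hfc, hun, hdeg, acyclic_of_unique _ ?_⟩
  intro v w x hvw hvx
  exact Subtype.ext (hdeg v.1 w.1 x.1 v.2 w.2 x.2 hvw hvx)

end Pool.Agent.Results.MP_caa3b9_co.ShortTwoFactor
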